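import Pool.Agent.W295.PR.Stm

/-!
# Quotients by closed subgroups are Hausdorff
-/

set_option autoImplicit false

namespace Pool.Agent.W589.PR.T2

open Pool.Agent.W295.PR

theorem main : S_T2 := by
  intro G _ _ _ H hH
  rw [t2Space_iff_of_isOpenQuotientMap (QuotientGroup.isOpenQuotientMap_mk (N := H))]
  have h : {q : G × G | (QuotientGroup.mk q.1 : G ⧸ H) = QuotientGroup.mk q.2} =
      (fun q : G × G => q.1⁻¹ * q.2) ⁻¹' (H : Set G) := by
    ext q
    exact QuotientGroup.eq
  rw [h]
  exact hH.preimage (by fun_prop)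

end Pool.Agent.W589.PR.T2
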